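import Pool.Agent.H71.CQ.Basic

set_option autoImplicit false

open Set

namespace Pool.Agent.H46.CQ

open Pool.Agent.H71.CQ

theorem pf_INV (hSIL : T_SIL) (hCTO : T_CTO) (hMEM : T_MEM) : T_INV := by
  intro L _ _ N hN hP k Y _ _ ρ hρ hinv
  have hr : Measurable fun p : (ℕ → ℕ → L) × (Fin k → ℕ) => ρ p.1 p.2 :=
    measurable_from_prod_countable_left fun z => hρ z
  have hX : MeasurableSet {p : (ℕ → ℕ → L) × (Fin k → ℕ) | Mem N p.1} :=
    measurable_fst (hMEM L N hN)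
  have hE : MeasurableSet {p : ((ℕ → ℕ → L) × (Fin k → ℕ)) × ((ℕ → ℕ → L) × (Fin k → ℕ)) |
      ρ p.1.1 p.1.2 = ρ p.2.1 p.2.2} :=
    measurableSet_eq_fun (hr.comp measurable_fst) (hr.comp measurable_snd)
  rcases hSIL _ {p : (ℕ → ℕ → L) × (Fin k → ℕ) | Mem N p.1} hX
    (fun p p' => ρ p.1 p.2 = ρ p'.1 p'.2) (fun _ _ => rfl) (fun _ _ _ _ h => h.symm)
    (fun _ _ _ _ _ _ h h' => h.trans h') hE with ⟨D, hDX, hD, hall⟩ | ⟨F, hF, hFX, hFE⟩
  · refine (hD.image fun p => ρ p.1 p.2).mono ?_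
    rintro y ⟨e, z, he, rfl⟩
    obtain ⟨d, hd, h⟩ := hall (e, z) he
    exact ⟨d, hd, h.symm⟩
  · exfalso
    have hF1 : Measurable fun u => (F u).1 := measurable_fst.comp hF
    have hc : ∀ u, {v | Iso (F u).1 (F v).1}.Countable := by
      intro u
      refine Set.MapsTo.countable_of_injOn (f := fun v => ρ (F v).1 (F v).2)
        (t := Set.range (ρ (F u).1)) ?_ ?_ (Set.countable_range _)
      · rintro v ⟨g, hg⟩
        refine ⟨g.symm ∘ (F v).2, ?_⟩
        have h := hinv _ _ g hg (g.symm ∘ (F v).2)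
        rw [← h]
        congr 1
        funext i
        simp
      · intro v _ v' _ h
        by_contra hne
        exact hFE v v' hne h
    obtain ⟨f, hf, hff⟩ := hCTO L (fun u => (F u).1) hF1 hc
    exact hP ⟨fun u => (F (f u)).1, hF1.comp hf, fun u => hFX (f u), hff⟩

end Pool.Agent.H46.CQ
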