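import Pool.Agent.H71.CQ.Basic

set_option autoImplicit false

open Set

namespace Pool.Agent.H46.CQ

open Pool.Agent.H71.CQ

theorem ol_tri (i j : Bool × ℕ) (h : i ≠ j) : (Ol i j ∧ ¬ Ol j i) ∨ (¬ Ol i j ∧ Ol j i) := by
  obtain ⟨a, m⟩ := i
  obtain ⟨b, n⟩ := j
  unfold Ol
  cases a <;> cases b
  · have hmn : m ≠ n := by
      rintro rfl
      exact h rfl
    simp only [Bool.false_eq_true, and_false, true_and, false_or]
    omega
  · simp
  · simp
  · have hmn : m ≠ n := by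
      rintro rfl
      exact h rfl
    simp only [Bool.true_eq_false, false_and, true_and, false_or]
    omega

theorem cl_mem {L : Type} {N : NF L} (hF : HFre N) {e : ℕ → ℕ → L} (he : Mem N e) {x y : ℕ}
    {l0 l1 : L} (h0 : l0 ∈ Fr N (e x x) (e y y)) (h1 : l1 ∈ Fr N (e x x) (e y y)) (u : ℕ → Bool)
    (v w : SQ N fun _ : Bool × ℕ => e) :
    Cl N e x y l0 l1 u v w ∈ Fr N (e v.2 v.2) (e w.2 w.2) := by
  classical
  unfold Cl
  split_ifs with h h'
  · obtain ⟨_, _, hx, hy⟩ := h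
    rw [hx, hy]
    exact h1
  · obtain ⟨_, _, hx, hy⟩ := h
    rw [hx, hy]
    exact h0
  · exact fr_mem (hF e he _ _ (srt_inf v.2.2) (srt_inf w.2.2))

theorem pf_UNH : T_UNH := by
  classical
  intro L N _ hF e he x y _ _ l0 h0 l1 h1 u
  refine ⟨he, fun _ => he, fun _ _ => Iff.rfl, fun _ _ _ => rfl, fun v w hvw => ?_,
    fun v w hvw => ?_⟩
  · rcases ol_tri v.1 w.1 hvw with ⟨h, _⟩ | ⟨h, _⟩
    · unfold Cr
      rw [if_pos h]
      exact cl_mem hF he h0 h1 u v w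
    · unfold Cr
      rw [if_neg h]
      exact fr_rev (cl_mem hF he h0 h1 u w v)
  · rcases ol_tri v.1 w.1 hvw with ⟨h, h'⟩ | ⟨h, h'⟩
    · unfold Cr
      rw [if_pos h, if_neg h']
    · unfold Cr
      rw [if_neg h, if_pos h', rl_rev_rev (cl_mem hF he h0 h1 u w v).1]

end Pool.Agent.H46.CQ
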